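import Mathlib
import Pool.Agent.KS6_90.CRG.Conv

/-!
# Convolution operators and completely regular growth: the exact criterion

For a compact convex set `D` with interior points and an entire function `φ ≢ 0` the following are
equivalent:

* `φ(D)` maps every entire function `f` of exponential type with completely regular growth and
  conjugate diagram `D` to a function of completely regular growth;
* `φ` does not vanish at any corner of `D`.

The implication from the corner condition (for every `f`, whatever its diagram) is the answer to the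
question; the converse is new for every `D` and every `φ`.
-/

set_option autoImplicit false

open Filter Topology Metric

namespace Pool.Agent.Results.MP_8d04b0_an.CornerCriterion

/-- `f` is an entire function of exponential type: `|f z| ≤ A e^{B |z|}`. -/
def ExpType (f : ℂ → ℂ) : Prop :=
  Differentiable ℂ f ∧ ∃ A B : ℝ, ∀ z, ‖f z‖ ≤ A * Real.exp (B * ‖z‖)

/-- The indicator `h_f(θ) = limsup_{r → ∞} r⁻¹ log |f (r e^{iθ})|`, with `log 0 = -∞`. -/
noncomputable def indicator (f : ℂ → ℂ) (θ : ℝ) : EReal :=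
  limsup (fun r : ℝ =>
    ENNReal.log ‖f (r * Complex.exp (θ * Complex.I))‖ₑ / (r : EReal)) atTop

/-- Completely regular growth (Levin, Pfluger; order 1) of an entire function `f ≢ 0` of
exponential type: there is an exceptional set `E = ⋃ⱼ {|z - cⱼ| < ρⱼ}` with
`R⁻¹ ∑_{|cⱼ| < R} ρⱼ → 0` as `R → ∞`, such that `r⁻¹ log |f (r e^{iθ})| - h_f(θ) → 0` as `r → ∞`,
`r e^{iθ} ∉ E`, uniformly in `θ` (written as
`e^{(h_f(θ) - ε) r} ≤ |f (r e^{iθ})| ≤ e^{(h_f(θ) + ε) r}`). -/
def CRG (f : ℂ → ℂ) : Prop :=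
  ExpType f ∧ (∃ z, f z ≠ 0) ∧ ∃ h : ℝ → ℝ, (∀ θ, indicator f θ = h θ) ∧
    ∃ (c : ℕ → ℂ) (ρ : ℕ → ℝ), (∀ j, 0 ≤ ρ j) ∧
      Tendsto (fun R : ℝ =>
        (∑' j, if ‖c j‖ < R then ENNReal.ofReal (ρ j) else 0) / ENNReal.ofReal R) atTop (𝓝 0) ∧
      ∀ ε > 0, ∃ R₀ : ℝ, ∀ r ≥ R₀, ∀ θ : ℝ,
        (∀ j, ρ j ≤ ‖r * Complex.exp (θ * Complex.I) - c j‖) →
          Real.exp ((h θ - ε) * r) ≤ ‖f (r * Complex.exp (θ * Complex.I))‖ ∧
          ‖f (r * Complex.exp (θ * Complex.I))‖ ≤ Real.exp ((h θ + ε) * r)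

/-- The Borel transform `∑ n! aₙ w^{-n-1}` of `f z = ∑ aₙ zⁿ` (so `n! aₙ = f⁽ⁿ⁾(0)`). -/
noncomputable def borel (f : ℂ → ℂ) (w : ℂ) : ℂ := ∑' n, iteratedDeriv n f 0 / w ^ (n + 1)

/-- The Borel transform of `f` continues analytically to the complement of `K`: some function
analytic off `K` agrees with it at all points of large modulus outside `K`. -/
def ContinuesOff (f : ℂ → ℂ) (K : Set ℂ) : Prop :=
  ∃ F : ℂ → ℂ, DifferentiableOn ℂ F Kᶜ ∧ ∃ R : ℝ, ∀ w : ℂ, R < ‖w‖ → w ∉ K → F w = borel f w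

/-- The conjugate diagram `D_f`: the smallest closed convex set outside of which the Borel
transform continues analytically. -/
def conjDiagram (f : ℂ → ℂ) : Set ℂ :=
  ⋂₀ {K : Set ℂ | IsClosed K ∧ Convex ℝ K ∧ ContinuesOff f K}

/-- `lam` is a corner of the compact convex set `D`: a common endpoint of two segments on the
boundary of `D` that do not lie on one line. If `D` degenerates to a segment, its two endpoints
are the corners. -/
def IsCorner (D : Set ℂ) (lam : ℂ) : Prop :=
  (∃ a b : ℂ, a ≠ lam ∧ b ≠ lam ∧ segment ℝ lam a ⊆ frontier D ∧ segment ℝ lam b ⊆ frontier D ∧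
    ¬ Collinear ℝ {lam, a, b}) ∨
  ∃ a : ℂ, a ≠ lam ∧ D = segment ℝ lam a

/-- The operator `φ(D) f = ∑ cₖ f⁽ᵏ⁾`, where `φ z = ∑ cₖ zᵏ`, `cₖ = φ⁽ᵏ⁾(0) / k!`. -/
noncomputable def opD (φ f : ℂ → ℂ) (z : ℂ) : ℂ :=
  ∑' k : ℕ, iteratedDeriv k φ 0 / (k.factorial : ℂ) * iteratedDeriv k f z

/-- **Convolution operators and completely regular growth: exact criterion.**

(1) (Answer to the question.) Let `f` have completely regular growth and let `φ ≢ 0` be entire with
`φ lam ≠ 0` at every corner `lam` of the conjugate diagram of `f`. Then `φ(D) f` converges everywhere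
and has completely regular growth, except in the degenerate case in which the diagram is a single
point `lam`, `φ lam = 0` and `φ(D) f` vanishes identically.

(2) The corner condition is exactly right, for every diagram and every symbol: if `D` is any compact
convex set with interior points and `φ ≢ 0` is entire, then `φ(D)` maps every function of completely
regular growth with the conjugate diagram `D` to a function of completely regular growth (or to the
zero function) if and only if `φ` has no zero at a corner of `D`. -/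
theorem result :
    (∀ f φ : ℂ → ℂ, CRG f → Differentiable ℂ φ → (∃ z, φ z ≠ 0) →
      (∀ lam : ℂ, IsCorner (conjDiagram f) lam → φ lam ≠ 0) →
      (∀ z, Summable (fun k : ℕ =>
        iteratedDeriv k φ 0 / (k.factorial : ℂ) * iteratedDeriv k f z)) ∧
      (CRG (opD φ f) ∨
        ∃ lam : ℂ, conjDiagram f = {lam} ∧ φ lam = 0 ∧ ∀ z, opD φ f z = 0)) ∧
    (∀ (D : Set ℂ) (φ : ℂ → ℂ), IsCompact D → Convex ℝ D → (interior D).Nonempty →
      Differentiable ℂ φ → (∃ z, φ z ≠ 0) →
      ((∀ f : ℂ → ℂ, CRG f → conjDiagram f = D → CRG (opD φ f) ∨ ∀ z, opD φ f z = 0) ↔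
        ∀ lam : ℂ, IsCorner D lam → φ lam ≠ 0)) := by
  have h1 : ∀ f φ : ℂ → ℂ, CRG f → Differentiable ℂ φ → (∃ z, φ z ≠ 0) →
      (∀ lam : ℂ, IsCorner (conjDiagram f) lam → φ lam ≠ 0) →
      (∀ z, Summable (fun k : ℕ =>
        iteratedDeriv k φ 0 / (k.factorial : ℂ) * iteratedDeriv k f z)) ∧
      (CRG (opD φ f) ∨
        ∃ lam : ℂ, conjDiagram f = {lam} ∧ φ lam = 0 ∧ ∀ z, opD φ f z = 0) :=
    fun f φ hf hφ hφ0 hc => Pool.Agent.Helper960.Crg.final f φ hf hφ hφ0 hc
  refine ⟨h1, fun D φ hD hconv hint hφ hφ0 => ⟨fun h lam hcor h0 => ?_, fun h f hf hfD => ?_⟩⟩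
  · obtain ⟨f, k1, k2, ⟨z, k3⟩, k4⟩ :=
      Pool.Agent.KS6_90.CRG.exists_bad hD hconv hint hcor hφ hφ0 h0
    rcases h f k1 k2 with h3 | h3
    · exact k4 h3
    · exact k3 (h3 z)
  · rcases (h1 f φ hf hφ hφ0 (by rw [hfD]; exact h)).2 with h3 | ⟨lam, -, -, h3⟩
    · exact Or.inl h3
    · exact Or.inr h3

end Pool.Agent.Results.MP_8d04b0_an.CornerCriterion
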